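import Pool.Agent.H82.NTC.Stmts

/-!
# Board `ntc`, row XDSE: crossings of different elements, first corner of kind `SE`
-/

set_option autoImplicit false

namespace Pool.NTC

open Pool.NET

namespace XDSEx

lemma tri (S c c' : ℤ) (hS : 0 < S) :
    S * c' + S ≤ S * c ∨ c' = c ∨ S * c + S ≤ S * c' := by
  rcases lt_trichotomy c' c with h | h | h
  · left
    nlinarith
  · right
    left
    exact h
  · right
    right
    nlinarith

end XDSEx

open XDSEx in
/-- Row XDSE. -/
theorem xdse_thm : XDF Ke.SE := by
  intro p e g e' g' N N' h h' u hp hp' hN hN' hU hU' hor v w hv hw h1 h2 h3 h4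
  obtain ⟨q0, gq, gW, We, eM, MS⟩ := hp
  obtain ⟨-, gq', gW', We', eM', -⟩ := hp'
  obtain ⟨⟨c', r'⟩, k'⟩ := w
  obtain ⟨c, r⟩ := v
  obtain ⟨q, W, M, S⟩ := p
  have tc := tri S c c' (by dsimp only at *; omega)
  have tr := tri S r r' (by dsimp only at *; omega)
  -- the upper bound of the abscissa
  have h2' : fx ⟨q, W, M, S⟩ e' g' ((c', r'), k') ≤ S * c + M + W + q := by
    refine h2.trans ?_
    dsimp only at *
    by_cases hh : h (c, r)
    · simp only [hi, nx2, if_pos hh, fx]
      omega
    · simp only [hi, nx2, if_neg hh, fx]
      omega
  cases k'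
  case R =>
    simp only [lo, jl, jh, fx, fy] at h1 h2' h3 h4
    dsimp only at *
    have hc : c' = c := by
      rcases tc with tc | tc | tc
      · exfalso
        omega
      · exact tc
      · exfalso
        omega
    subst hc
    have hr : r' = r := by
      rcases tr with tr | tr | tr
      · exfalso
        omega
      · exact tr
      · exfalso
        omega
    subst hr
    have hA : 4 * e ≤ e' ∧ g' + 10 * q ≤ g := by
      rcases hor with hor | hor
      · exact hor
      · exfalso
        omega
    refine ⟨hA, ⟨(c', r'), hv, hw.1⟩, ?_, ?_⟩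
    · by_cases hh : h (c', r')
      · simp only [prM, nx2, if_pos hh, fx]
        rw [abs_of_nonneg (by omega), abs_of_nonpos (by omega)]
        omega
      · simp only [prM, nx2, if_neg hh, fx]
        rw [abs_of_nonneg (by omega), abs_of_nonpos (by omega)]
        omega
    · intro t
      simp only [prW, pv2, fy]
      rw [abs_of_nonneg (by omega), abs_of_nonpos (by omega)]
      omega
  case NW =>
    exfalso
    simp only [lo, fx] at h1 h2'
    dsimp only at *
    rcases tc with tc | rfl | tc <;> omega
  case B =>
    exfalso
    simp only [lo, fx] at h1 h2'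
    dsimp only at *
    rcases tc with tc | rfl | tc <;> omega
  case L =>
    exfalso
    simp only [lo, fx] at h1 h2'
    dsimp only at *
    rcases tc with tc | rfl | tc <;> omega
  case J3 =>
    exfalso
    simp only [lo, fx] at h1 h2'
    dsimp only at *
    rcases tc with tc | rfl | tc <;> omega
  case J4 =>
    exfalso
    simp only [lo, fx] at h1 h2'
    dsimp only at *
    rcases tc with tc | rfl | tc <;> omega
  case J1 =>
    exfalso
    simp only [lo, jl, jh, fx, fy] at h1 h2' h3 h4
    dsimp only at *
    rcases tr with tr | rfl | tr <;> omega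
  case J2 =>
    exfalso
    simp only [lo, jl, jh, fx, fy] at h1 h2' h3 h4
    dsimp only at *
    rcases tr with tr | rfl | tr <;> omega
  case T =>
    exfalso
    simp only [lo, jl, jh, pv2, fx, fy] at h1 h2' h3 h4
    dsimp only at *
    rcases tr with tr | rfl | tr <;> omega
  case SE =>
    exfalso
    simp only [lo, jl, jh, pv2, fx, fy] at h1 h2' h3 h4
    dsimp only at *
    have hc : c' = c := by
      rcases tc with tc | tc | tc
      · exfalso
        omega
      · exact tc
      · exfalso
        omega
    subst hc
    split_ifs at h3
    · simp only at h3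
      have h5 : S * (r' - 1) = S * r' - S := by ring
      rw [h5] at h3
      rcases tr with tr | rfl | tr <;> omega
    · simp only at h3
      rcases tr with tr | rfl | tr <;> omega

end Pool.NTC
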